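import Mathlib

set_option autoImplicit false

open Cardinal

namespace Pool.Agent.H77.GL

universe u v

variable {F : Type u} [Field F] {V : Type v} [AddCommGroup V] [Module F V]

/-- gluing two isomorphisms along complements -/
theorem glue {M : Type v} [AddCommGroup M] [Module F M] {B C : Submodule F V}
    {B' C' : Submodule F M} (h : IsCompl B C) (h' : IsCompl B' C')
    (f : B ≃ₗ[F] B') (f' : C ≃ₗ[F] C') :
    ∃ g : V ≃ₗ[F] M, (∀ x : B, g x = f x) ∧ (∀ y : C, g y = f' y) := by
  refine ⟨(Submodule.prodEquivOfIsCompl B C h).symm.trans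
    ((LinearEquiv.prodCongr f f').trans (Submodule.prodEquivOfIsCompl B' C' h')), ?_, ?_⟩
  · intro x
    simp
  · intro y
    simp

theorem mem_decomp {B C : Submodule F V} (h : IsCompl B C) (v : V) :
    ∃ b ∈ B, ∃ c ∈ C, b + c = v := by
  have : v ∈ B ⊔ C := by rw [h.sup_eq_top]; trivial
  exact Submodule.mem_sup.mp this

theorem rank_quot_of_isCompl {B C : Submodule F V} (h : IsCompl B C) :
    Module.rank F (V ⧸ B) = Module.rank F C :=
  (Submodule.quotientEquivOfIsCompl B C h).rank_eq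

theorem rank_quot_anti {S T : Submodule F V} (h : S ≤ T) :
    Module.rank F (V ⧸ T) ≤ Module.rank F (V ⧸ S) := by
  refine LinearMap.rank_le_of_surjective (Submodule.liftQ S T.mkQ (by simpa using h)) ?_
  intro x
  obtain ⟨x, rfl⟩ := T.mkQ_surjective x
  exact ⟨S.mkQ x, by simp⟩

theorem rank_quot_ge_of_disjoint {A B : Submodule F V} (h : Disjoint A B) :
    Module.rank F B ≤ Module.rank F (V ⧸ A) := by
  refine LinearMap.rank_le_of_injective (A.mkQ.domRestrict B) ?_
  rw [injective_iff_map_eq_zero]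
  intro x hx
  have hx' : (x : V) ∈ A := by simpa using hx
  have : (x : V) ∈ A ⊓ B := ⟨hx', x.2⟩
  rw [h.eq_bot] at this
  simpa using this

/-- splitting an infinite dimensional space -/
theorem exists_split (hκ : ℵ₀ ≤ Module.rank F V) :
    ∃ B C : Submodule F V, IsCompl B C ∧ Module.rank F B = Module.rank F V ∧
      Module.rank F C = Module.rank F V := by
  have h : Module.rank F (V × V) = Module.rank F V := by
    rw [rank_prod', Cardinal.add_eq_self hκ]
  obtain ⟨e⟩ := nonempty_linearEquiv_of_rank_eq h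
  refine ⟨LinearMap.range (e.toLinearMap ∘ₗ LinearMap.inl F V V),
    LinearMap.range (e.toLinearMap ∘ₗ LinearMap.inr F V V), ⟨?_, ?_⟩, ?_, ?_⟩
  · rw [Submodule.disjoint_def]
    rintro x ⟨a, rfl⟩ ⟨b, hb⟩
    have : (LinearMap.inr F V V b) = LinearMap.inl F V V a := e.injective hb
    simp only [LinearMap.inr_apply, LinearMap.inl_apply, Prod.mk.injEq] at this
    simp [← this.1]
  · rw [codisjoint_iff, eq_top_iff]
    rintro x -
    obtain ⟨⟨a, b⟩, rfl⟩ := e.surjective x
    refine Submodule.mem_sup.mpr ⟨e (a, 0), ⟨a, rfl⟩, e (0, b), ⟨b, rfl⟩, ?_⟩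
    rw [← map_add]; simp
  · exact (LinearEquiv.ofInjective (e.toLinearMap ∘ₗ LinearMap.inl F V V)
      (by rw [LinearMap.coe_comp]; exact e.injective.comp LinearMap.inl_injective)).rank_eq.symm
  · exact (LinearEquiv.ofInjective (e.toLinearMap ∘ₗ LinearMap.inr F V V)
      (by rw [LinearMap.coe_comp]; exact e.injective.comp LinearMap.inr_injective)).rank_eq.symm

/-- splitting a submodule -/
theorem exists_split_sub (U : Submodule F V) (hκ : ℵ₀ ≤ Module.rank F U) :
    ∃ B C : Submodule F V, Disjoint B C ∧ B ⊔ C = U ∧ Module.rank F B = Module.rank F U ∧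
      Module.rank F C = Module.rank F U := by
  obtain ⟨B, C, hBC, hB, hC⟩ := exists_split hκ
  refine ⟨B.map U.subtype, C.map U.subtype, ?_, ?_, ?_, ?_⟩
  · exact Submodule.disjoint_map U.injective_subtype hBC.disjoint
  · rw [← Submodule.map_sup, hBC.sup_eq_top, Submodule.map_top, Submodule.range_subtype]
  · rw [← hB]; exact (Submodule.equivMapOfInjective U.subtype U.injective_subtype B).rank_eq.symm
  · rw [← hC]; exact (Submodule.equivMapOfInjective U.subtype U.injective_subtype C).rank_eq.symm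

/-- Lemma E -/
theorem lemmaE {κ : Cardinal.{v}} (hκ : ℵ₀ ≤ κ) (U₁ U₂ : Submodule F V)
    (h1 : Module.rank F U₁ = κ) (h2 : Module.rank F (V ⧸ U₂) = κ) :
    ∃ Z : Submodule F V, Z ≤ U₁ ∧ Module.rank F Z = κ ∧ Module.rank F (V ⧸ (U₂ ⊔ Z)) = κ := by
  by_cases hK : Module.rank F (U₁ ⊓ U₂ : Submodule F V) = κ
  · refine ⟨U₁ ⊓ U₂, inf_le_left, hK, ?_⟩
    rw [sup_eq_left.mpr inf_le_right, h2]
  · have hK' : Module.rank F (U₁ ⊓ U₂ : Submodule F V) < κ :=
      lt_of_le_of_ne ((Submodule.rank_mono inf_le_left).trans h1.le) hK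
    set R := U₁.map U₂.mkQ with hR
    have hRr : Module.rank F R = κ := by
      have e1 := LinearMap.rank_range_add_rank_ker (U₂.mkQ.domRestrict U₁)
      have e2 : LinearMap.range (U₂.mkQ.domRestrict U₁) = R := by
        rw [LinearMap.range_domRestrict]
      have e3 : Module.rank F (LinearMap.ker (U₂.mkQ.domRestrict U₁)) ≤
          Module.rank F (U₁ ⊓ U₂ : Submodule F V) := by
        refine LinearMap.rank_le_of_injective
          (LinearMap.codRestrict (U₁ ⊓ U₂) (U₁.subtype ∘ₗ Submodule.subtype _) ?_) ?_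
        · rintro ⟨⟨x, hx⟩, hx'⟩
          exact ⟨hx, by simpa using hx'⟩
        · intro x y hxy
          have := congrArg Subtype.val hxy
          exact Subtype.ext (Subtype.ext this)
      rw [e2, h1] at e1
      by_contra hne
      have hlt : Module.rank F R < κ :=
        lt_of_le_of_ne ((rank_map_le _ _).trans h1.le) hne
      have := Cardinal.add_lt_of_lt hκ hlt (e3.trans_lt hK')
      rw [e1] at this
      exact lt_irrefl _ this
    obtain ⟨Q₁, Q₂, hQ, hQs, hQ1, hQ2⟩ := exists_split_sub R (by rw [hRr]; exact hκ)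
    refine ⟨U₁ ⊓ Q₁.comap U₂.mkQ, inf_le_left, ?_, ?_⟩
    · apply le_antisymm ((Submodule.rank_mono inf_le_left).trans h1.le)
      have : (U₁ ⊓ Q₁.comap U₂.mkQ).map U₂.mkQ = Q₁ := by
        apply le_antisymm
        · rintro _ ⟨x, hx, rfl⟩; exact hx.2
        · intro q hq
          have : q ∈ R := by rw [← hQs]; exact Submodule.mem_sup_left hq
          obtain ⟨x, hx, rfl⟩ := this
          exact ⟨x, ⟨hx, hq⟩, rfl⟩
      calc κ = Module.rank F Q₁ := by rw [hQ1, hRr]
        _ = Module.rank F ((U₁ ⊓ Q₁.comap U₂.mkQ).map U₂.mkQ) := by rw [this]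
        _ ≤ _ := rank_map_le _ _
    · apply le_antisymm ((rank_quot_anti le_sup_left).trans h2.le)
      calc κ = Module.rank F Q₂ := by rw [hQ2, hRr]
        _ ≤ Module.rank F ((V ⧸ U₂) ⧸ Q₁) := rank_quot_ge_of_disjoint hQ
        _ ≤ _ := by
          refine LinearMap.rank_le_of_surjective
            (Submodule.liftQ (U₂ ⊔ (U₁ ⊓ Q₁.comap U₂.mkQ)) (Q₁.mkQ ∘ₗ U₂.mkQ) ?_) ?_
          · refine sup_le ?_ ?_
            · intro x hx
              have : U₂.mkQ x = 0 := by simpa using hx
              rw [LinearMap.mem_ker, LinearMap.comp_apply, this, map_zero]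
            · intro x hx
              have : U₂.mkQ x ∈ Q₁ := hx.2
              rw [LinearMap.mem_ker, LinearMap.comp_apply]
              simpa using this
          · intro x
            obtain ⟨x, rfl⟩ := Q₁.mkQ_surjective x
            obtain ⟨x, rfl⟩ := U₂.mkQ_surjective x
            exact ⟨Submodule.mkQ _ x, by simp⟩

/-- extension of an isomorphism of subspaces with equal coranks -/
theorem exists_ext {B B' : Submodule F V} (φ : B ≃ₗ[F] B')
    (h : Module.rank F (V ⧸ B) = Module.rank F (V ⧸ B')) :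
    ∃ g : V ≃ₗ[F] V, ∀ x : B, g x = φ x := by
  obtain ⟨C, hC⟩ := B.exists_isCompl
  obtain ⟨C', hC'⟩ := B'.exists_isCompl
  rw [rank_quot_of_isCompl hC, rank_quot_of_isCompl hC'] at h
  obtain ⟨e⟩ := nonempty_linearEquiv_of_rank_eq h
  obtain ⟨g, hg, -⟩ := glue hC hC' φ e
  exact ⟨g, hg⟩

/-- change of complement -/
theorem exists_change {B C C' : Submodule F V} (h : IsCompl B C) (h' : IsCompl B C') :
    ∃ u : V ≃ₗ[F] V, (∀ b ∈ B, u b = b) ∧ (∀ v, u v - v ∈ B) ∧ (∀ c ∈ C, u c ∈ C') ∧
      (∀ c ∈ C', u.symm c ∈ C) := by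
  obtain ⟨g, hg, hg'⟩ := glue h h' (LinearEquiv.refl F B)
    ((Submodule.quotientEquivOfIsCompl B C h).symm.trans
      (Submodule.quotientEquivOfIsCompl B C' h'))
  refine ⟨g, ?_, ?_, ?_, ?_⟩
  · intro b hb
    exact hg ⟨b, hb⟩
  · intro v
    obtain ⟨b, hb, c, hc, rfl⟩ := mem_decomp h v
    have e1 : g b = b := hg ⟨b, hb⟩
    have e2 : g c - c ∈ B := by
      have e3 := hg' ⟨c, hc⟩
      simp only at e3
      rw [e3, LinearEquiv.trans_apply, Submodule.quotientEquivOfIsCompl_symm_apply]
      have e4 := Submodule.mk_quotientEquivOfIsCompl_apply h' (Submodule.Quotient.mk c)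
      rw [Submodule.Quotient.eq] at e4
      exact e4
    rw [map_add, e1]
    have : b + g c - (b + c) = g c - c := by abel
    rw [this]; exact e2
  · intro c hc
    have e3 := hg' ⟨c, hc⟩
    simp only at e3
    rw [e3]
    exact Subtype.mem _
  · intro c hc
    set e := ((Submodule.quotientEquivOfIsCompl B C h).symm.trans
      (Submodule.quotientEquivOfIsCompl B C' h'))
    have : g (e.symm ⟨c, hc⟩ : V) = c := by
      rw [hg']; simp
    rw [← this, LinearEquiv.symm_apply_apply]
    exact Subtype.mem _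

/-- automorphism `1 + x` with `x * x = 0` -/
theorem exists_unip (x : V →ₗ[F] V) (hx : ∀ v, x (x v) = 0) :
    ∃ g : V ≃ₗ[F] V, ∀ v, g v = v + x v := by
  refine ⟨LinearEquiv.ofLinearMap (LinearMap.id + x) (LinearMap.id - x) ?_ ?_, fun v => ?_⟩
  · ext v; simp [hx]
  · ext v; simp [hx]
  · simp

end Pool.Agent.H77.GL
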