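import Pool.Agent.H77.GLBase

set_option autoImplicit false

open Cardinal

namespace Pool.Agent.H77.GL

universe u v

variable {F : Type u} [Field F] {V : Type v} [AddCommGroup V] [Module F V]

/-- `g` is supported on `B`, and trivial on `C`. -/
def Supp (B C : Submodule F V) (g : V ≃ₗ[F] V) : Prop := (∀ b ∈ B, g b ∈ B) ∧ ∀ c ∈ C, g c = c

/-- `g` is a transvection with image in `B` and trivial on `Z`. -/
def Tr (B Z : Submodule F V) (g : V ≃ₗ[F] V) : Prop := (∀ v, g v - v ∈ B) ∧ ∀ c ∈ Z, g c = c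

theorem rank_sup_eq {κ : Cardinal.{v}} (hκ : ℵ₀ ≤ κ) {A B : Submodule F V}
    (hA : Module.rank F A ≤ κ) (hB : Module.rank F B = κ) :
    Module.rank F (A ⊔ B : Submodule F V) = κ := by
  apply le_antisymm
  · refine (Submodule.rank_add_le_rank_add_rank A B).trans ?_
    rw [hB]
    refine (add_le_add_left hA κ).trans ?_
    rw [Cardinal.add_eq_self hκ]
  · rw [← hB]; exact Submodule.rank_mono le_sup_right

/-- rearranging three summands -/
theorem isCompl_rot {B C C₁ C₂ : Submodule F V} (h : IsCompl B C) (hd : Disjoint C₁ C₂)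
    (hs : C₁ ⊔ C₂ = C) : IsCompl (B ⊔ C₁) C₂ := by
  subst hs
  refine ⟨?_, ?_⟩
  · rw [Submodule.disjoint_def]
    intro x hx hx2
    obtain ⟨b, hb, c, hc, rfl⟩ := Submodule.mem_sup.mp hx
    have hb' : b ∈ C₁ ⊔ C₂ := by
      have : b = (b + c) - c := by abel
      rw [this]
      exact Submodule.sub_mem _ (Submodule.mem_sup_right hx2) (Submodule.mem_sup_left hc)
    have hb0 : b = 0 := (Submodule.disjoint_def.mp h.disjoint) b hb hb'
    subst hb0
    rw [zero_add] at hx2 ⊢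
    exact (Submodule.disjoint_def.mp hd) c hc hx2
  · rw [codisjoint_iff, sup_assoc]
    exact h.sup_eq_top

/-- factoring a transvection -/
theorem tr_factor {B C C₁ C₂ : Submodule F V} (h : IsCompl B C) (hd : Disjoint C₁ C₂)
    (hs : C₁ ⊔ C₂ = C) {g : V ≃ₗ[F] V} (hg : Tr B B g) :
    ∃ g₁ g₂ : V ≃ₗ[F] V, g = g₁ * g₂ ∧ Tr B (B ⊔ C₂) g₁ ∧ Tr B (B ⊔ C₁) g₂ := by
  have h1 : IsCompl (B ⊔ C₂) C₁ := isCompl_rot h hd.symm (by rw [sup_comm]; exact hs)
  -- projection onto `C₁` along `B ⊔ C₂`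
  let p : V →ₗ[F] V := C₁.subtype ∘ₗ (Submodule.projectionOnto C₁ (B ⊔ C₂) h1.symm)
  have hp1 : ∀ c ∈ C₁, p c = c := by
    intro c hc
    change ((Submodule.projectionOnto C₁ (B ⊔ C₂) h1.symm c : C₁) : V) = c
    have := Submodule.projectionOnto_apply_left h1.symm ⟨c, hc⟩
    simp only at this
    rw [this]
  have hp2 : ∀ c ∈ B ⊔ C₂, p c = 0 := by
    intro c hc
    change ((Submodule.projectionOnto C₁ (B ⊔ C₂) h1.symm c : C₁) : V) = 0
    rw [(Submodule.projectionOnto_apply_eq_zero_iff h1.symm).mpr hc]; rfl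
  let x : V →ₗ[F] V := (g.toLinearMap - LinearMap.id) ∘ₗ p
  have hx : ∀ v, x v = g (p v) - p v := fun v => rfl
  have hxB : ∀ v, x v ∈ B := fun v => by rw [hx]; exact hg.1 _
  obtain ⟨g₁, hg₁⟩ := exists_unip x (fun v => by
    rw [hx (x v), hp2 _ (Submodule.mem_sup_left (hxB v)), map_zero, sub_zero])
  have hg1Z : ∀ v ∈ B ⊔ C₂, g₁ v = v := by
    intro v hv
    rw [hg₁, hx, hp2 v hv, map_zero, sub_zero, add_zero]
  refine ⟨g₁, g₁⁻¹ * g, by group, ⟨fun v => ?_, hg1Z⟩, ⟨fun v => ?_, fun c hc => ?_⟩⟩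
  · rw [hg₁]; simpa using hxB v
  · have e1 : g v = v + (g v - v) := by abel
    have hB : g v - v ∈ B := hg.1 v
    have e2 : g₁.symm (g v) = g v - x v := by
      rw [LinearEquiv.symm_apply_eq, map_sub, hg₁ (g v), hg1Z (x v) (Submodule.mem_sup_left (hxB v))]
      have : x (g v) = x v := by
        have e3 : x (g v) = x v + x (g v - v) := by rw [← map_add]; congr 1
        rw [e3, hx (g v - v), hp2 _ (Submodule.mem_sup_left hB), map_zero, sub_zero, add_zero]
      rw [this]; abel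
    change g₁.symm (g v) - v ∈ B
    rw [e2]
    have : g v - x v - v = (g v - v) - x v := by abel
    rw [this]
    exact Submodule.sub_mem _ hB (hxB v)
  · change g₁.symm (g c) = c
    rw [LinearEquiv.symm_apply_eq]
    obtain ⟨b, hb, c', hc', rfl⟩ := Submodule.mem_sup.mp hc
    rw [map_add, map_add, hg.2 b hb, hg1Z b (Submodule.mem_sup_left hb), hg₁, hx, hp1 c' hc']
    abel

/-- a subgroup containing all automorphisms supported on large summands contains the
transvections -/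
theorem tr_mem {κ : Cardinal.{v}} (hκ : ℵ₀ ≤ κ) (hV : Module.rank F V = κ)
    (N : Subgroup (V ≃ₗ[F] V))
    (hN : ∀ B C : Submodule F V, IsCompl B C → Module.rank F B = κ → Module.rank F C = κ →
      ∀ g, Supp B C g → g ∈ N)
    (B : Submodule F V) (hB : Module.rank F (V ⧸ B) = κ) (g : V ≃ₗ[F] V) (hg : Tr B B g) :
    g ∈ N := by
  obtain ⟨C, hC⟩ := B.exists_isCompl
  have hCr : Module.rank F C = κ := by rw [← rank_quot_of_isCompl hC, hB]
  obtain ⟨C₁, C₂, hd, hs, h1, h2⟩ := exists_split_sub C (by rw [hCr]; exact hκ)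
  rw [hCr] at h1 h2
  obtain ⟨g₁, g₂, rfl, t1, t2⟩ := tr_factor hC hd hs hg
  have hBκ : Module.rank F B ≤ κ := by rw [← hV]; exact B.rank_le
  refine N.mul_mem (hN (B ⊔ C₁) C₂ (isCompl_rot hC hd hs) (rank_sup_eq hκ hBκ h1) h2 _ ⟨?_, ?_⟩)
    (hN (B ⊔ C₂) C₁ (isCompl_rot hC hd.symm (by rw [sup_comm]; exact hs))
      (rank_sup_eq hκ hBκ h2) h1 _ ⟨?_, ?_⟩)
  · intro b hb
    have : g₁ b = (g₁ b - b) + b := by abel
    rw [this]
    exact Submodule.add_mem _ (Submodule.mem_sup_left (t1.1 b)) hb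
  · intro c hc
    exact t1.2 c (Submodule.mem_sup_right hc)
  · intro b hb
    have : g₂ b = (g₂ b - b) + b := by abel
    rw [this]
    exact Submodule.add_mem _ (Submodule.mem_sup_left (t2.1 b)) hb
  · intro c hc
    exact t2.2 c (Submodule.mem_sup_right hc)

/-- elements trivial on a large subspace -/
theorem fix_mem {κ : Cardinal.{v}} (hκ : ℵ₀ ≤ κ) (hV : Module.rank F V = κ)
    (N : Subgroup (V ≃ₗ[F] V))
    (hN : ∀ B C : Submodule F V, IsCompl B C → Module.rank F B = κ → Module.rank F C = κ →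
      ∀ g, Supp B C g → g ∈ N)
    (B : Submodule F V) (hBr : Module.rank F B = κ) (hB : Module.rank F (V ⧸ B) = κ)
    (f : V ≃ₗ[F] V) (hf : ∀ b ∈ B, f b = b) : f ∈ N := by
  obtain ⟨C, hC⟩ := B.exists_isCompl
  have hCr : Module.rank F C = κ := by rw [← rank_quot_of_isCompl hC, hB]
  have hC' : IsCompl B (C.map f.toLinearMap) := by
    have hBm : B.map f.toLinearMap = B := by
      apply le_antisymm
      · rintro _ ⟨b, hb, rfl⟩
        change f b ∈ B
        rw [hf b hb]; exact hb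
      · intro b hb
        exact ⟨b, hb, hf b hb⟩
    have := hC.map (Submodule.orderIsoMapComap f)
    simp only [Submodule.orderIsoMapComap_apply] at this
    change IsCompl (B.map f.toLinearMap) (C.map f.toLinearMap) at this
    rwa [hBm] at this
  obtain ⟨u, hu1, hu2, hu3, hu4⟩ := exists_change hC hC'
  have huN : u ∈ N := tr_mem hκ hV N hN B hB u ⟨hu2, hu1⟩
  have hd : u⁻¹ * f ∈ N := by
    refine hN C B hC.symm hCr hBr _ ⟨?_, ?_⟩
    · intro c hc
      exact hu4 (f c) ⟨c, hc, rfl⟩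
    · intro b hb
      change u.symm (f b) = b
      rw [LinearEquiv.symm_apply_eq, hf b hb, hu1 b hb]
  have : f = u * (u⁻¹ * f) := by group
  rw [this]
  exact N.mul_mem huN hd

/-- extending inside a submodule -/
theorem exists_ext_sub {κ : Cardinal.{v}} {T B B' : Submodule F V}
    (hB : B ≤ T) (hB' : B' ≤ T) (φ : B ≃ₗ[F] B')
    (h : Module.rank F (T ⧸ B.submoduleOf T) = κ) (h' : Module.rank F (T ⧸ B'.submoduleOf T) = κ) :
    ∃ f : T ≃ₗ[F] T, ∀ b : B, (f ⟨b, hB b.2⟩ : V) = φ b := by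
  obtain ⟨f, hf⟩ := exists_ext
    ((Submodule.submoduleOfEquivOfLe hB).trans (φ.trans (Submodule.submoduleOfEquivOfLe hB').symm))
    (h.trans h'.symm)
  refine ⟨f, fun b => ?_⟩
  have := hf ⟨⟨b, hB b.2⟩, b.2⟩
  simp only at this
  rw [this]
  rfl

theorem rank_rel {κ : Cardinal.{v}} {T B D : Submodule F V} (hT : Module.rank F T = κ)
    (hD : D ≤ T) (hd : Disjoint B D) (hDr : Module.rank F D = κ) :
    Module.rank F (T ⧸ B.submoduleOf T) = κ := by
  apply le_antisymm
  · rw [← hT]; exact rank_quotient_le _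
  · have h1 : Disjoint (B.submoduleOf T) (D.submoduleOf T) := by
      rw [Submodule.disjoint_def]
      intro x hx hx'
      have : (x : V) = 0 := (Submodule.disjoint_def.mp hd) x hx hx'
      exact Subtype.ext this
    have h2 := rank_quot_ge_of_disjoint h1
    rw [(Submodule.submoduleOfEquivOfLe hD).rank_eq, hDr] at h2
    exact h2

/-- Generation lemma -/
theorem gen {κ : Cardinal.{v}} (hκ : ℵ₀ ≤ κ) (hV : Module.rank F V = κ)
    (N : Subgroup (V ≃ₗ[F] V))
    (hN : ∀ B C : Submodule F V, IsCompl B C → Module.rank F B = κ → Module.rank F C = κ →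
      ∀ g, Supp B C g → g ∈ N) : N = ⊤ := by
  rw [eq_top_iff]
  rintro f -
  obtain ⟨X, Y, hXY, hX, hY⟩ := exists_split (F := F) (V := V) (by rw [hV]; exact hκ)
  rw [hV] at hX hY
  have hfX : Module.rank F (X.map f.toLinearMap) = κ := by
    rw [← hX]; exact (f.submoduleMap X).rank_eq.symm
  obtain ⟨Z, hZ1, hZ2, hZ3⟩ := lemmaE hκ (X.map f.toLinearMap) X hfX
    (by rw [rank_quot_of_isCompl hXY, hY])
  obtain ⟨D, hD⟩ := (X ⊔ Z).exists_isCompl
  have hDr : Module.rank F D = κ := by rw [← rank_quot_of_isCompl hD, hZ3]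
  obtain ⟨D₁, D₂, hdd, hds, h1, h2⟩ := exists_split_sub D (by rw [hDr]; exact hκ)
  rw [hDr] at h1 h2
  set T := X ⊔ Z ⊔ D₁ with hTdef
  have hTD : IsCompl T D₂ := isCompl_rot hD hdd hds
  have hTr : Module.rank F T = κ := rank_sup_eq hκ (by rw [← hV]; exact Submodule.rank_le _) h1
  set B := Z.map f.symm.toLinearMap with hBdef
  have hBX : B ≤ X := by
    rintro _ ⟨z, hz, rfl⟩
    obtain ⟨x, hx, rfl⟩ := hZ1 hz
    change f.symm (f x) ∈ X
    rw [LinearEquiv.symm_apply_apply]; exact hx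
  have hBr : Module.rank F B = κ := by
    rw [← hZ2]; exact (f.symm.submoduleMap Z).rank_eq.symm
  -- the iso `B ≃ Z` induced by `f`
  let φ : B ≃ₗ[F] Z := (f.symm.submoduleMap Z).symm
  have hφ : ∀ b : B, (φ b : V) = f b := by
    intro b
    obtain ⟨z, rfl⟩ := (f.symm.submoduleMap Z).surjective b
    simp [φ]
  have hBT : B ≤ T := hBX.trans (le_sup_left.trans le_sup_left)
  have hZT : Z ≤ T := le_sup_right.trans le_sup_left
  have hdB : Disjoint B D₁ := hD.disjoint.mono (hBX.trans le_sup_left) (by rw [← hds]; exact le_sup_left)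
  have hdZ : Disjoint Z D₁ := hD.disjoint.mono le_sup_right (by rw [← hds]; exact le_sup_left)
  obtain ⟨fT, hfT⟩ := exists_ext_sub hBT hZT φ (rank_rel hTr le_sup_right hdB h1)
    (rank_rel hTr le_sup_right hdZ h1)
  obtain ⟨g₁, hg1, hg2⟩ := glue hTD hTD fT (LinearEquiv.refl F D₂)
  have hg1N : g₁ ∈ N := by
    refine hN T D₂ hTD hTr h2 _ ⟨?_, ?_⟩
    · intro b hb
      have := hg1 ⟨b, hb⟩
      simp only at this
      rw [this]
      exact Subtype.mem _
    · intro c hc
      exact hg2 ⟨c, hc⟩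
  have hf1 : g₁⁻¹ * f ∈ N := by
    refine fix_mem hκ hV N hN B hBr ?_ _ ?_
    · apply le_antisymm
      · rw [← hV]; exact rank_quotient_le _
      · calc κ = Module.rank F (V ⧸ X) := by rw [rank_quot_of_isCompl hXY, hY]
          _ ≤ _ := rank_quot_anti hBX
    · intro b hb
      change g₁.symm (f b) = b
      rw [LinearEquiv.symm_apply_eq]
      have e1 := hg1 ⟨b, hBT hb⟩
      simp only at e1
      rw [e1]
      have e2 := hfT ⟨b, hb⟩
      simp only at e2
      rw [e2, hφ]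
  have : f = g₁ * (g₁⁻¹ * f) := by group
  rw [this]
  exact N.mul_mem hg1N hf1

end Pool.Agent.H77.GL
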