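import Pool.Agent.H77.GLGen

set_option autoImplicit false

open Cardinal

namespace Pool.Agent.H77.GL

universe u v

variable {F : Type u} [Field F] {V : Type v} [AddCommGroup V] [Module F V]

/-- the hypothesis of fullness, in terms of a cardinal `κ` -/
def Full (κ : Cardinal.{v}) (H : Subgroup (V ≃ₗ[F] V)) : Prop :=
  ∀ U : Submodule F V, Module.rank F U = κ → Module.rank F (V ⧸ U) = κ →
    ∀ f : U ≃ₗ[F] U, ∃ h ∈ H, ∀ x : U, h (x : V) = (f x : V)

/-- every isomorphism between large subspaces with large sum is induced -/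
theorem hom_a {κ : Cardinal.{v}} (hκ : ℵ₀ ≤ κ) (hV : Module.rank F V = κ)
    {H : Subgroup (V ≃ₗ[F] V)} (hH : Full κ H) {B B' : Submodule F V} (φ : B ≃ₗ[F] B')
    (hBB : Module.rank F (V ⧸ (B ⊔ B')) = κ) : ∃ h ∈ H, ∀ b : B, h b = φ b := by
  obtain ⟨D, hD⟩ := (B ⊔ B').exists_isCompl
  have hDr : Module.rank F D = κ := by rw [← rank_quot_of_isCompl hD, hBB]
  obtain ⟨D₁, D₂, hdd, hds, h1, h2⟩ := exists_split_sub D (by rw [hDr]; exact hκ)
  rw [hDr] at h1 h2
  set T := B ⊔ B' ⊔ D₁ with hTdef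
  have hTD : IsCompl T D₂ := isCompl_rot hD hdd hds
  have hTr : Module.rank F T = κ := rank_sup_eq hκ (by rw [← hV]; exact Submodule.rank_le _) h1
  have hTq : Module.rank F (V ⧸ T) = κ := by rw [rank_quot_of_isCompl hTD, h2]
  have hBT : B ≤ T := le_sup_left.trans le_sup_left
  have hBT' : B' ≤ T := le_sup_right.trans le_sup_left
  have hd1 : Disjoint B D₁ := hD.disjoint.mono le_sup_left (by rw [← hds]; exact le_sup_left)
  have hd2 : Disjoint B' D₁ := hD.disjoint.mono le_sup_right (by rw [← hds]; exact le_sup_left)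
  obtain ⟨fT, hfT⟩ := exists_ext_sub hBT hBT' φ (rank_rel hTr le_sup_right hd1 h1)
    (rank_rel hTr le_sup_right hd2 h1)
  obtain ⟨h, hh, hhf⟩ := hH T hTr hTq fT
  refine ⟨h, hh, fun b => ?_⟩
  have := hhf ⟨b, hBT b.2⟩
  simp only at this
  rw [this, hfT b]

/-- every isomorphism between large subspaces is induced -/
theorem hom_b {κ : Cardinal.{v}} (hκ : ℵ₀ ≤ κ) (hV : Module.rank F V = κ)
    {H : Subgroup (V ≃ₗ[F] V)} (hH : Full κ H) {B B' : Submodule F V} (φ : B ≃ₗ[F] B')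
    (hB : Module.rank F B = κ) (hBq : Module.rank F (V ⧸ B) = κ)
    (hBq' : Module.rank F (V ⧸ B') = κ) : ∃ h ∈ H, ∀ b : B, h b = φ b := by
  obtain ⟨Z, hZ1, hZ2, hZ3⟩ := lemmaE hκ B B' hB hBq'
  obtain ⟨ψ⟩ := nonempty_linearEquiv_of_rank_eq (hB.trans hZ2.symm)
  obtain ⟨h₁, hh₁, e1⟩ := hom_a hκ hV hH ψ (by rw [sup_eq_left.mpr hZ1, hBq])
  obtain ⟨h₂, hh₂, e2⟩ := hom_a hκ hV hH (ψ.symm.trans φ) (by rw [sup_comm]; exact hZ3)
  refine ⟨h₂ * h₁, H.mul_mem hh₂ hh₁, fun b => ?_⟩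
  change h₂ (h₁ b) = φ b
  rw [e1, e2]; simp

/-- every automorphism agrees with an element of `H` on a given large subspace -/
theorem hom_c {κ : Cardinal.{v}} (hκ : ℵ₀ ≤ κ) (hV : Module.rank F V = κ)
    {H : Subgroup (V ≃ₗ[F] V)} (hH : Full κ H) {B : Submodule F V}
    (hB : Module.rank F B = κ) (hBq : Module.rank F (V ⧸ B) = κ) (m : V ≃ₗ[F] V) :
    ∃ h ∈ H, ∀ b ∈ B, h b = m b := by
  have hq : Module.rank F (V ⧸ B.map m.toLinearMap) = κ := by
    rw [← hBq]
    exact (Submodule.Quotient.equiv B (B.map m.toLinearMap) m rfl).rank_eq.symm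
  obtain ⟨h, hh, e⟩ := hom_b hκ hV hH (m.submoduleMap B) hB hBq hq
  refine ⟨h, hh, fun b hb => ?_⟩
  have := e ⟨b, hb⟩
  simp only at this
  rw [this]
  rfl

theorem exists_supProd {A B : Submodule F V} (h : Disjoint A B) :
    ∃ Φ : (A × B) ≃ₗ[F] (A ⊔ B : Submodule F V), ∀ x, (Φ x : V) = x.1 + x.2 := by
  refine ⟨LinearEquiv.ofBijective
    (LinearMap.coprod (Submodule.inclusion le_sup_left) (Submodule.inclusion le_sup_right))
    ⟨?_, ?_⟩, fun x => rfl⟩
  · rw [injective_iff_map_eq_zero]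
    rintro ⟨x, y⟩ hxy
    have h3 : (x : V) + y = 0 := congrArg Subtype.val hxy
    have h4 : (x : V) = 0 := by
      refine (Submodule.disjoint_def.mp h) x x.2 ?_
      have : (x : V) = -(y : V) := eq_neg_of_add_eq_zero_left h3
      rw [this]; exact Submodule.neg_mem _ y.2
    have h5 : (y : V) = 0 := by rwa [h4, zero_add] at h3
    ext <;> simp [h4, h5]
  · rintro ⟨x, hx⟩
    obtain ⟨y, hy, z, hz, rfl⟩ := Submodule.mem_sup.mp hx
    exact ⟨(⟨y, hy⟩, ⟨z, hz⟩), Subtype.ext rfl⟩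

/-- Step 5 -/
theorem step5 {κ : Cardinal.{v}} (hκ : ℵ₀ ≤ κ) (hV : Module.rank F V = κ)
    {H : Subgroup (V ≃ₗ[F] V)} (hH : Full κ H) {U W : Submodule F V} (hUW : IsCompl U W)
    (hU : Module.rank F U = κ) (hW : Module.rank F W = κ) (hS : ∀ g, Supp U W g → g ∈ H) :
    H = ⊤ := by
  obtain ⟨U₁, U₂, hUd, hUs, hU1, hU2⟩ := exists_split_sub U (by rw [hU]; exact hκ)
  rw [hU] at hU1 hU2
  have hUr : IsCompl (W ⊔ U₁) U₂ := isCompl_rot hUW.symm hUd hUs
  have hUr' : IsCompl (W ⊔ U₂) U₁ := isCompl_rot hUW.symm hUd.symm (by rw [sup_comm]; exact hUs)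
  have hWU1 : Disjoint W U₁ := hUW.symm.disjoint.mono_right (by rw [← hUs]; exact le_sup_left)
  have hWκ : Module.rank F W ≤ κ := hW.le
  -- transvections for the first pair
  have hT0 : ∀ g, Tr U₁ (W ⊔ U₁) g → g ∈ H := by
    intro g hg
    refine hS g ⟨fun b hb => ?_, fun c hc => hg.2 c (Submodule.mem_sup_left hc)⟩
    have : g b = (g b - b) + b := by abel
    rw [this]
    refine Submodule.add_mem _ ?_ hb
    rw [← hUs]
    exact Submodule.mem_sup_left (hg.1 b)
  have hZ0 : Module.rank F (W ⊔ U₁ : Submodule F V) = κ := rank_sup_eq hκ hWκ hU1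
  have hZ0q : Module.rank F (V ⧸ (W ⊔ U₁)) = κ := by rw [rank_quot_of_isCompl hUr, hU2]
  -- all relative transvections
  have hT1 : ∀ B C₁ C₂ : Submodule F V, Module.rank F B = κ → Module.rank F C₁ = κ →
      Module.rank F C₂ = κ → Disjoint C₁ C₂ → IsCompl B (C₁ ⊔ C₂) →
      ∀ g, Tr B (B ⊔ C₂) g → g ∈ H := by
    intro B C₁ C₂ hB h1 h2 hd hC g hg
    have hC1 : IsCompl (B ⊔ C₂) C₁ := isCompl_rot hC hd.symm (by rw [sup_comm])
    have hBC2 : Disjoint C₂ B := (hC.disjoint.mono_right le_sup_right).symm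
    -- iso
    obtain ⟨a⟩ := nonempty_linearEquiv_of_rank_eq (hW.trans h2.symm)
    obtain ⟨b⟩ := nonempty_linearEquiv_of_rank_eq (hU1.trans hB.symm)
    obtain ⟨c⟩ := nonempty_linearEquiv_of_rank_eq (hU2.trans h1.symm)
    -- first glue `U₁, U₂`
    obtain ⟨m, hm1, hm2⟩ : ∃ m : V ≃ₗ[F] V, (∀ x : W, m x = a x) ∧ (∀ x : U₁, m x = b x) := by
      obtain ⟨Φ, hΦ⟩ := exists_supProd hWU1
      obtain ⟨Ψ, hΨ⟩ := exists_supProd hBC2
      have hC1' : IsCompl (C₂ ⊔ B) C₁ := by rw [sup_comm]; exact hC1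
      obtain ⟨m, hm1, hm2⟩ := glue hUr hC1'
        (Φ.symm.trans ((LinearEquiv.prodCongr a b).trans Ψ)) c
      refine ⟨m, fun x => ?_, fun x => ?_⟩
      · have e2 := hm1 (Φ (x, 0))
        rw [hΦ] at e2
        simpa [hΨ] using e2
      · have e2 := hm1 (Φ (0, x))
        rw [hΦ] at e2
        simpa [hΨ] using e2
    obtain ⟨h, hh, hhm⟩ := hom_c hκ hV hH hZ0 hZ0q m
    have hh1 : ∀ x ∈ W, h x ∈ C₂ := by
      intro x hx
      rw [hhm x (Submodule.mem_sup_left hx)]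
      have := hm1 ⟨x, hx⟩
      simp only at this
      rw [this]; exact Subtype.mem _
    have hh2 : ∀ x ∈ U₁, h x ∈ B := by
      intro x hx
      rw [hhm x (Submodule.mem_sup_right hx)]
      have := hm2 ⟨x, hx⟩
      simp only at this
      rw [this]; exact Subtype.mem _
    have hh3 : ∀ y ∈ B, h.symm y ∈ U₁ := by
      intro y hy
      have := hm2 (b.symm ⟨y, hy⟩)
      rw [LinearEquiv.apply_symm_apply, ← hhm _ (Submodule.mem_sup_right (Subtype.mem _))] at this
      simp only at this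
      rw [← this, LinearEquiv.symm_apply_apply]
      exact Subtype.mem _
    have hgc : h⁻¹ * g * h ∈ H := by
      refine hT0 _ ⟨fun v => ?_, fun z hz => ?_⟩
      · change h.symm (g (h v)) - v ∈ U₁
        have : h.symm (g (h v)) - v = h.symm (g (h v) - h v) := by
          rw [map_sub, LinearEquiv.symm_apply_apply]
        rw [this]
        exact hh3 _ (hg.1 _)
      · change h.symm (g (h z)) = z
        rw [LinearEquiv.symm_apply_eq]
        apply hg.2
        obtain ⟨w, hw, x, hx, rfl⟩ := Submodule.mem_sup.mp hz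
        rw [map_add]
        exact Submodule.add_mem _ (Submodule.mem_sup_right (hh1 w hw))
          (Submodule.mem_sup_left (hh2 x hx))
    have : g = h * (h⁻¹ * g * h) * h⁻¹ := by group
    rw [this]
    exact H.mul_mem (H.mul_mem hh hgc) (H.inv_mem hh)
  -- all transvections
  have hT2 : ∀ B : Submodule F V, Module.rank F B = κ → Module.rank F (V ⧸ B) = κ →
      ∀ g, Tr B B g → g ∈ H := by
    intro B hB hBq g hg
    obtain ⟨C, hC⟩ := B.exists_isCompl
    have hCr : Module.rank F C = κ := by rw [← rank_quot_of_isCompl hC, hBq]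
    obtain ⟨C₁, C₂, hd, hs, h1, h2⟩ := exists_split_sub C (by rw [hCr]; exact hκ)
    rw [hCr] at h1 h2
    obtain ⟨g₁, g₂, rfl, t1, t2⟩ := tr_factor hC hd hs hg
    exact H.mul_mem (hT1 B C₁ C₂ hB h1 h2 hd (by rw [hs]; exact hC) _ t1)
      (hT1 B C₂ C₁ hB h2 h1 hd.symm (by rw [sup_comm, hs]; exact hC) _ t2)
  -- conclusion
  refine gen hκ hV H ?_
  intro B C hBC hB hC g hg
  have hBq : Module.rank F (V ⧸ B) = κ := by rw [rank_quot_of_isCompl hBC, hC]
  obtain ⟨b⟩ := nonempty_linearEquiv_of_rank_eq (hU.trans hB.symm)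
  obtain ⟨c⟩ := nonempty_linearEquiv_of_rank_eq (hW.trans hC.symm)
  obtain ⟨m, hm1, hm2⟩ := glue hUW hBC b c
  have hUq : Module.rank F (V ⧸ U) = κ := by rw [rank_quot_of_isCompl hUW, hW]
  obtain ⟨h, hh, hhm⟩ := hom_c hκ hV hH hU hUq m
  -- `h` maps `U` onto `B`
  have hUB : U.map h.toLinearMap = B := by
    apply le_antisymm
    · rintro _ ⟨x, hx, rfl⟩
      change h x ∈ B
      rw [hhm x hx]
      have := hm1 ⟨x, hx⟩
      simp only at this
      rw [this]; exact Subtype.mem _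
    · intro y hy
      refine ⟨b.symm ⟨y, hy⟩, Subtype.mem _, ?_⟩
      change h (b.symm ⟨y, hy⟩ : V) = y
      rw [hhm _ (Subtype.mem _), hm1, LinearEquiv.apply_symm_apply]
  have hBW : IsCompl B (W.map h.toLinearMap) := by
    have := hUW.map (Submodule.orderIsoMapComap h)
    simp only [Submodule.orderIsoMapComap_apply] at this
    change IsCompl (U.map h.toLinearMap) (W.map h.toLinearMap) at this
    rwa [hUB] at this
  obtain ⟨u, hu1, hu2, hu3, hu4⟩ := exists_change hBW hBC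
  have huH : u ∈ H := hT2 B hB hBq u ⟨hu2, hu1⟩
  have hBu : ∀ x, x ∈ B → u.symm x = x := by
    intro x hx
    rw [LinearEquiv.symm_apply_eq, hu1 x hx]
  have hconj : (u * h)⁻¹ * g * (u * h) ∈ H := by
    refine hS _ ⟨fun x hx => ?_, fun w hw => ?_⟩
    · change h.symm (u.symm (g (u (h x)))) ∈ U
      have h1 : h x ∈ B := by rw [← hUB]; exact ⟨x, hx, rfl⟩
      rw [hu1 _ h1]
      have h2 := hg.1 _ h1
      rw [hBu _ h2]
      have h3 : g (h x) ∈ U.map h.toLinearMap := by rw [hUB]; exact h2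
      obtain ⟨y, hy, hy'⟩ := h3
      have hy'' : h y = g (h x) := hy'
      rw [← hy'', LinearEquiv.symm_apply_apply]; exact hy
    · change h.symm (u.symm (g (u (h w)))) = w
      have h1 : u (h w) ∈ C := hu3 _ ⟨w, hw, rfl⟩
      rw [hg.2 _ h1, LinearEquiv.symm_apply_apply, LinearEquiv.symm_apply_apply]
  have : g = (u * h) * ((u * h)⁻¹ * g * (u * h)) * (u * h)⁻¹ := by group
  rw [this]
  exact H.mul_mem (H.mul_mem (H.mul_mem huH hh) hconj) (H.inv_mem (H.mul_mem huH hh))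

end Pool.Agent.H77.GL
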