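import Pool.Agent.H77.GLGen

set_option autoImplicit false

open Cardinal

namespace Pool.Agent.H77.GL

universe u v

variable {F : Type u} [Field F] {V : Type v} [AddCommGroup V] [Module F V]

open Classical in
/-- apply `w` in the copies `n` with `p n` -/
noncomputable def tw (p : ℤ → Prop) (w : V ≃ₗ[F] V) : (ℤ →₀ V) ≃ₗ[F] (ℤ →₀ V) where
  toFun f := ⟨f.support, fun n => if p n then w (f n) else f n, fun n => by
    by_cases h : p n <;> simp [h]⟩
  map_add' f g := by
    ext n; by_cases h : p n <;> simp [h]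
  map_smul' c f := by
    ext n; by_cases h : p n <;> simp [h]
  invFun f := ⟨f.support, fun n => if p n then w.symm (f n) else f n, fun n => by
    by_cases h : p n <;> simp [h]⟩
  left_inv f := by
    ext n; by_cases h : p n <;> simp [h]
  right_inv f := by
    ext n; by_cases h : p n <;> simp [h]

theorem tw_pos {p : ℤ → Prop} {w : V ≃ₗ[F] V} {f : ℤ →₀ V} {n : ℤ} (h : p n) :
    tw p w f n = w (f n) := by
  simp [tw, h]

theorem tw_neg {p : ℤ → Prop} {w : V ≃ₗ[F] V} {f : ℤ →₀ V} {n : ℤ} (h : ¬ p n) :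
    tw p w f n = f n := by
  simp [tw, h]

open Classical in
theorem tw_symm_pos {p : ℤ → Prop} {w : V ≃ₗ[F] V} {f : ℤ →₀ V} {n : ℤ} (h : p n) :
    (tw p w).symm f n = w.symm (f n) := by
  change (if p n then w.symm (f n) else f n) = _
  simp [h]

open Classical in
theorem tw_symm_neg {p : ℤ → Prop} {w : V ≃ₗ[F] V} {f : ℤ →₀ V} {n : ℤ} (h : ¬ p n) :
    (tw p w).symm f n = f n := by
  change (if p n then w.symm (f n) else f n) = _
  simp [h]

/-- the shift -/
noncomputable def sh : (ℤ →₀ V) ≃ₗ[F] (ℤ →₀ V) := Finsupp.domLCongr (Equiv.addRight (1 : ℤ))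

theorem sh_apply (f : ℤ →₀ V) (n : ℤ) : (sh (F := F)) f n = f (n - 1) := by
  simp [sh, Finsupp.domLCongr_apply, sub_eq_add_neg]

theorem sh_symm_apply (f : ℤ →₀ V) (n : ℤ) : (sh (F := F)).symm f n = f (n + 1) := by
  have := sh_apply (F := F) ((sh (F := F)).symm f) (n + 1)
  rw [LinearEquiv.apply_symm_apply] at this
  rw [this]; congr 1; ring

theorem sh_single (n : ℤ) (v : V) : (sh (F := F)) (Finsupp.single n v) = Finsupp.single (n + 1) v := by
  simp [sh]

theorem tw_comm (w : V ≃ₗ[F] V) (f : ℤ →₀ V) :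
    tw (fun n => 0 ≤ n) w (sh (F := F) ((tw (fun n => 0 ≤ n) w).symm ((sh (F := F)).symm f))) =
      tw (fun n => n = 0) w f := by
  ext n
  rcases lt_trichotomy n 0 with h | h | h
  · rw [tw_neg (by omega), sh_apply, tw_symm_neg (by omega), sh_symm_apply, tw_neg (by omega)]
    congr 1; ring
  · subst h
    rw [tw_pos (le_refl _), sh_apply, tw_symm_neg (by omega), sh_symm_apply,
      tw_pos (p := fun n => n = 0) rfl]
    congr 1
  · rw [tw_pos (by omega), sh_apply, tw_symm_pos (by omega), sh_symm_apply, tw_neg (by omega),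
      LinearEquiv.apply_symm_apply]
    congr 1; ring

theorem supp_map {B C : Submodule F V} (h : IsCompl B C) {g : V ≃ₗ[F] V} (hg : Supp B C g) :
    B.map g.toLinearMap = B := by
  apply le_antisymm
  · rintro _ ⟨b, hb, rfl⟩
    exact hg.1 b hb
  · intro y hy
    obtain ⟨b, hb, c, hc, hbc⟩ := mem_decomp h (g.symm y)
    have e1 : y = g b + c := by
      have : g (b + c) = y := by rw [hbc, LinearEquiv.apply_symm_apply]
      rw [← this, map_add, hg.2 c hc]
    have e2 : c ∈ B := by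
      have : c = y - g b := by rw [e1]; abel
      rw [this]
      exact Submodule.sub_mem _ hy (hg.1 b hb)
    have e3 : c = 0 := (Submodule.disjoint_def.mp h.disjoint) c e2 hc
    refine ⟨b, hb, ?_⟩
    change g b = y
    rw [e1, e3, add_zero]

/-- Step 3 -/
theorem swindle_main {κ : Cardinal.{v}} (hκ : ℵ₀ ≤ κ) (hV : Module.rank F V = κ)
    (N : Subgroup (V ≃ₗ[F] V)) [hNn : N.Normal] (γ : V ≃ₗ[F] V)
    (hγ : ∀ x : V ≃ₗ[F] V, x * γ * x⁻¹ * γ⁻¹ ∈ N) (α : V →ₗ[F] V)
    (hα : ∀ w₁ w₂ w₃, γ.symm (α w₁) + α w₂ + γ (α w₃) = 0 → w₁ = 0 ∧ w₂ = 0 ∧ w₃ = 0) :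
    N = ⊤ := by
  have hαi : Function.Injective α := by
    rw [injective_iff_map_eq_zero]
    intro v hv
    exact (hα 0 v 0 (by simp [hv])).2.1
  set A := LinearMap.range α with hA
  set R := A.map γ.symm.toLinearMap ⊔ A.map γ.toLinearMap with hR
  have hRA : Disjoint R A := by
    rw [Submodule.disjoint_def]
    rintro x hx ⟨w₂, rfl⟩
    obtain ⟨_, ⟨_, ⟨w₁, rfl⟩, rfl⟩, _, ⟨_, ⟨w₃, rfl⟩, rfl⟩, h⟩ := Submodule.mem_sup.mp hx
    have h' : γ.symm (α w₁) + γ (α w₃) = α w₂ := h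
    have := (hα w₁ (-w₂) w₃ (by rw [map_neg, ← h']; abel)).2.1
    rw [neg_eq_zero] at this
    rw [this, map_zero]
  obtain ⟨C, hRC, hCA⟩ := hRA.exists_isCompl
  have hAC : IsCompl A C := hCA.symm
  have hγA : ∀ v, γ (α v) ∈ C := fun v =>
    hRC (Submodule.mem_sup_right ⟨α v, ⟨v, rfl⟩, rfl⟩)
  have hγA' : ∀ v, γ.symm (α v) ∈ C := fun v =>
    hRC (Submodule.mem_sup_left ⟨α v, ⟨v, rfl⟩, rfl⟩)
  have hAr : Module.rank F A = κ := by
    rw [← hV]; exact (LinearEquiv.ofInjective α hαi).rank_eq.symm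
  have hCr : Module.rank F C = κ := by
    apply le_antisymm (by rw [← hV]; exact C.rank_le)
    calc κ = Module.rank F A := hAr.symm
      _ = Module.rank F (A.map γ.toLinearMap) := (γ.submoduleMap A).rank_eq
      _ ≤ _ := Submodule.rank_mono (le_sup_right.trans hRC)
  -- the automorphisms acting on the first factor
  let Θ : (V × C) ≃ₗ[F] V :=
    (LinearEquiv.prodCongr (LinearEquiv.ofInjective α hαi) (LinearEquiv.refl F C)).trans
      (Submodule.prodEquivOfIsCompl A C hAC)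
  have hΘ : ∀ v c, Θ (v, c) = α v + c := by
    intro v c; simp [Θ]
  let X : (V ≃ₗ[F] V) → (V ≃ₗ[F] V) := fun x =>
    Θ.symm.trans ((LinearEquiv.prodCongr x (LinearEquiv.refl F C)).trans Θ)
  have hX : ∀ x v c, c ∈ C → X x (α v + c) = α (x v) + c := by
    intro x v c hc
    have := hΘ v ⟨c, hc⟩
    simp only at this
    rw [← this]
    change Θ (LinearEquiv.prodCongr x (LinearEquiv.refl F C) (Θ.symm (Θ (v, ⟨c, hc⟩)))) = _
    rw [LinearEquiv.symm_apply_apply]
    exact hΘ _ _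
  have hdec : ∀ v, ∃ a, ∃ c ∈ C, v = α a + c := by
    intro v
    obtain ⟨_, ⟨a, rfl⟩, c, hc, rfl⟩ := mem_decomp hAC v
    exact ⟨a, c, hc, rfl⟩
  have hXmul : ∀ x y, X (x * y) = X x * X y := by
    intro x y
    ext v
    obtain ⟨a, c, hc, rfl⟩ := hdec v
    rw [hX _ _ _ hc]
    change _ = X x (X y (α a + c))
    rw [hX _ _ _ hc, hX _ _ _ hc]
    rfl
  have hXone : X 1 = 1 := by
    ext v
    obtain ⟨a, c, hc, rfl⟩ := hdec v
    rw [hX _ _ _ hc]
    rfl
  have hXinv : ∀ x, X x⁻¹ = (X x)⁻¹ := by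
    intro x
    apply eq_inv_of_mul_eq_one_left
    rw [← hXmul, inv_mul_cancel, hXone]
  have hXC : ∀ x c, c ∈ C → X x c = c := by
    intro x c hc
    have := hX x 0 c hc
    simpa using this
  have hXCi : ∀ x c, c ∈ C → (X x)⁻¹ c = c := by
    intro x c hc
    rw [← hXinv]; exact hXC _ _ hc
  -- commutators
  have hcomm : ∀ z x, X (z * x * z⁻¹ * x⁻¹) ∈ N := by
    intro z x
    have h1 : X x * γ * (X x)⁻¹ * γ⁻¹ ∈ N := hγ (X x)
    set X' := γ * (X x)⁻¹ * γ⁻¹ with hX'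
    have hX'A : ∀ a, X' (α a) = α a := by
      intro a
      change γ ((X x)⁻¹ (γ.symm (α a))) = α a
      rw [hXCi _ _ (hγA' a), LinearEquiv.apply_symm_apply]
    have hX'C : ∀ c ∈ C, X' c ∈ C := by
      intro c hc
      change γ ((X x)⁻¹ (γ.symm c)) ∈ C
      obtain ⟨a, c₁, hc₁, h2⟩ := hdec (γ.symm c)
      rw [h2, ← hXinv, hX _ _ _ hc₁]
      have h3 : α (x⁻¹ a) + c₁ = γ.symm c + α (x⁻¹ a - a) := by rw [h2, map_sub]; abel
      rw [h3, map_add, LinearEquiv.apply_symm_apply]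
      exact C.add_mem hc (hγA _)
    have hcom : X z * X' = X' * X z := by
      ext v
      obtain ⟨a, c, hc, rfl⟩ := hdec v
      change X z (X' (α a + c)) = X' (X z (α a + c))
      rw [map_add, hX'A, hX _ _ _ (hX'C c hc), hX _ _ _ hc, map_add, hX'A]
    have h2 : X z * (X x * γ * (X x)⁻¹ * γ⁻¹) * (X z)⁻¹ * (X x * γ * (X x)⁻¹ * γ⁻¹)⁻¹ ∈ N :=
      N.mul_mem (hNn.conj_mem _ h1 _) (N.inv_mem h1)
    have h3 : X z * (X x * γ * (X x)⁻¹ * γ⁻¹) * (X z)⁻¹ * (X x * γ * (X x)⁻¹ * γ⁻¹)⁻¹ =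
        X (z * x * z⁻¹ * x⁻¹) := by
      have e1 : X x * γ * (X x)⁻¹ * γ⁻¹ = X x * X' := by rw [hX']; group
      rw [e1, hXmul, hXmul, hXmul, hXinv, hXinv]
      have e2 : X' * (X z)⁻¹ = (X z)⁻¹ * X' := by
        rw [mul_inv_eq_iff_eq_mul, mul_assoc, ← hcom, inv_mul_cancel_left]
      calc X z * (X x * X') * (X z)⁻¹ * (X x * X')⁻¹
          = X z * X x * (X' * (X z)⁻¹) * X'⁻¹ * (X x)⁻¹ := by group
        _ = X z * X x * (X z)⁻¹ * (X x)⁻¹ := by rw [e2]; group
    rw [← h3]; exact h2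
  -- the swindle
  have hrank : Module.rank F V = Module.rank F (ℤ →₀ V) := by
    rw [rank_finsupp]
    simp only [Cardinal.mk_denumerable, Cardinal.lift_aleph0, Cardinal.lift_id']
    rw [hV, Cardinal.aleph0_mul_eq hκ]
  obtain ⟨E⟩ := nonempty_linearEquiv_of_rank_eq hrank
  have hsw : ∀ w : V ≃ₗ[F] V, X (E.trans ((tw (fun n => n = 0) w).trans E.symm)) ∈ N := by
    intro w
    have := hcomm (E.trans ((tw (fun n => 0 ≤ n) w).trans E.symm))
      (E.trans ((sh (F := F)).trans E.symm))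
    convert this using 2
    ext v
    change E.symm (tw (fun n => n = 0) w (E v)) =
      E.symm (tw (fun n => 0 ≤ n) w (E (E.symm (sh (F := F) (E
        (E.symm ((tw (fun n => 0 ≤ n) w).symm (E (E.symm ((sh (F := F)).symm (E v)))))))))))
    simp only [LinearEquiv.apply_symm_apply]
    rw [tw_comm]
  -- the standard decomposition
  let β : V →ₗ[F] V := α ∘ₗ E.symm.toLinearMap ∘ₗ Finsupp.lsingle 0
  have hβ : ∀ v, β v = α (E.symm (Finsupp.single 0 v)) := fun v => rfl
  let ρ : V →ₗ[F] V := Finsupp.lapply 0 ∘ₗ E.toLinearMap ∘ₗ LinearMap.fst F V C ∘ₗ Θ.symm.toLinearMap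
  have hρ : ∀ a c, c ∈ C → ρ (α a + c) = E a 0 := by
    intro a c hc
    have := hΘ a ⟨c, hc⟩
    simp only at this
    rw [← this]
    simp [ρ]
  have hρβ : ∀ v, ρ (β v) = v := by
    intro v
    have := hρ (E.symm (Finsupp.single 0 v)) 0 C.zero_mem
    rw [add_zero, LinearEquiv.apply_symm_apply, Finsupp.single_eq_same] at this
    exact this
  have hβi : Function.Injective β := Function.LeftInverse.injective hρβ
  have h0 : IsCompl (LinearMap.range β) (LinearMap.ker ρ) := by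
    refine ⟨?_, ?_⟩
    · rw [Submodule.disjoint_def]
      rintro x ⟨v, rfl⟩ hx
      rw [LinearMap.mem_ker, hρβ] at hx
      rw [hx, map_zero]
    · rw [codisjoint_iff, eq_top_iff]
      rintro x -
      refine Submodule.mem_sup.mpr ⟨β (ρ x), ⟨ρ x, rfl⟩, x - β (ρ x), ?_, by abel⟩
      rw [LinearMap.mem_ker, map_sub, hρβ, sub_self]
  have hC0 : Module.rank F (LinearMap.ker ρ) = κ := by
    apply le_antisymm (by rw [← hV]; exact Submodule.rank_le _)
    rw [← hCr]
    apply Submodule.rank_mono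
    intro c hc
    have := hρ 0 c hc
    rw [LinearMap.mem_ker]
    simpa using this
  refine gen hκ hV N ?_
  intro B C' hBC hB hC' g hg
  obtain ⟨b⟩ := nonempty_linearEquiv_of_rank_eq (hV.trans hB.symm)
  obtain ⟨c⟩ := nonempty_linearEquiv_of_rank_eq (hC0.trans hC'.symm)
  obtain ⟨m, hm1, hm2⟩ := glue h0 hBC ((LinearEquiv.ofInjective β hβi).symm.trans b) c
  have hmβ : ∀ v, m (β v) = b v := by
    intro v
    have := hm1 (LinearEquiv.ofInjective β hβi v)
    rw [LinearEquiv.trans_apply, LinearEquiv.symm_apply_apply] at this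
    exact this
  let gB : B ≃ₗ[F] B := LinearEquiv.ofSubmodules g B B (supp_map hBC hg)
  have hgB : ∀ x : B, (gB x : V) = g x := fun x => rfl
  obtain ⟨w, hw⟩ : ∃ w : V ≃ₗ[F] V, ∀ v, (b (w v) : V) = g (b v) :=
    ⟨b.trans (gB.trans b.symm), fun v => by rw [← hgB]; simp⟩
  have key : m⁻¹ * g * m = X (E.trans ((tw (fun n => n = 0) w).trans E.symm)) := by
    ext v
    change m.symm (g (m v)) = _
    obtain ⟨_, ⟨a, rfl⟩, c₀, hc₀, rfl⟩ := mem_decomp h0 v
    have e1 : m.symm (g (m (β a + c₀))) = β (w a) + c₀ := by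
      rw [LinearEquiv.symm_apply_eq, map_add, map_add, map_add, hmβ, hmβ, hw]
      congr 1
      have := hm2 ⟨c₀, hc₀⟩
      simp only at this
      rw [this]
      exact hg.2 _ (Subtype.mem _)
    rw [e1]
    obtain ⟨a', c'', hc'', rfl⟩ := hdec c₀
    rw [LinearMap.mem_ker, hρ _ _ hc''] at hc₀
    rw [hβ, hβ, ← add_assoc, ← add_assoc, ← map_add, ← map_add, hX _ _ _ hc'']
    congr 2
    rw [LinearEquiv.trans_apply, LinearEquiv.trans_apply, LinearEquiv.eq_symm_apply, map_add E,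
      map_add E, LinearEquiv.apply_symm_apply, LinearEquiv.apply_symm_apply]
    ext n
    by_cases hn : n = 0
    · subst hn
      rw [tw_pos (p := fun n => n = 0) rfl]
      simp [hc₀]
    · rw [tw_neg (p := fun n => n = 0) hn]
      simp [Ne.symm hn]
  have : g = m * (m⁻¹ * g * m) * m⁻¹ := by group
  rw [this, key]
  exact hNn.conj_mem _ (hsw w) m

end Pool.Agent.H77.GL
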