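import Pool.Agent.H77.GLHom
import Pool.Agent.H77.GLSwindle

set_option autoImplicit false

open Cardinal

namespace Pool.Agent.H77.GL

universe u v

variable {F : Type u} [Field F] {V : Type v} [AddCommGroup V] [Module F V]

/-- the normal subgroup `N₁` of step 2 -/
def N1 (H : Subgroup (V ≃ₗ[F] V)) (U : Submodule F V) : Subgroup (U ≃ₗ[F] U) where
  carrier := {n | ∃ k ∈ H, (∀ v, k v - v ∈ U) ∧ ∀ x : U, k (x : V) = (n x : V)}
  one_mem' := ⟨1, H.one_mem, fun v => by simp, fun x => rfl⟩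
  mul_mem' := by
    rintro a b ⟨k, hk, hk1, hk2⟩ ⟨l, hl, hl1, hl2⟩
    refine ⟨k * l, H.mul_mem hk hl, fun v => ?_, fun x => ?_⟩
    · change k (l v) - v ∈ U
      have : k (l v) - v = (k (l v) - l v) + (l v - v) := by abel
      rw [this]
      exact U.add_mem (hk1 _) (hl1 _)
    · change k (l x) = _
      rw [hl2, hk2]
      rfl
  inv_mem' := by
    rintro a ⟨k, hk, hk1, hk2⟩
    have e : ∀ x : U, k.symm (x : V) = (a.symm x : V) := by
      intro x
      rw [LinearEquiv.symm_apply_eq, hk2, LinearEquiv.apply_symm_apply]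
    refine ⟨k⁻¹, H.inv_mem hk, fun v => ?_, fun x => e x⟩
    change k.symm v - v ∈ U
    have h1 := hk1 (k.symm v)
    rw [LinearEquiv.apply_symm_apply] at h1
    have : k.symm v - v = -(v - k.symm v) := by abel
    rw [this]
    exact U.neg_mem h1

theorem mem_N1 {H : Subgroup (V ≃ₗ[F] V)} {U : Submodule F V} {n : U ≃ₗ[F] U} :
    n ∈ N1 H U ↔ ∃ k ∈ H, (∀ v, k v - v ∈ U) ∧ ∀ x : U, k (x : V) = (n x : V) := Iff.rfl

theorem N1_normal {κ : Cardinal.{v}} {H : Subgroup (V ≃ₗ[F] V)} (hH : Full κ H) {U : Submodule F V}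
    (hU : Module.rank F U = κ) (hUq : Module.rank F (V ⧸ U) = κ) : (N1 H U).Normal := by
  constructor
  rintro n ⟨k, hk, hk1, hk2⟩ x
  obtain ⟨m, hm, hmx⟩ := hH U hU hUq x
  have e : ∀ y : U, m.symm (y : V) = (x.symm y : V) := by
    intro y
    rw [LinearEquiv.symm_apply_eq, hmx, LinearEquiv.apply_symm_apply]
  refine ⟨m * k * m⁻¹, H.mul_mem (H.mul_mem hm hk) (H.inv_mem hm), fun v => ?_, fun y => ?_⟩
  · change m (k (m.symm v)) - v ∈ U
    have h1 : m (k (m.symm v)) - v = m (k (m.symm v) - m.symm v) := by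
      rw [map_sub, LinearEquiv.apply_symm_apply]
    have h2 := hmx ⟨_, hk1 (m.symm v)⟩
    simp only at h2
    rw [h1, h2]
    exact Subtype.mem _
  · change m (k (m.symm y)) = _
    rw [e, hk2, hmx]
    rfl

/-- Steps 2, 3, 4 -/
theorem core {κ : Cardinal.{v}} (hκ : ℵ₀ ≤ κ) (hV : Module.rank F V = κ)
    {H : Subgroup (V ≃ₗ[F] V)} (hH : Full κ H) {g : V ≃ₗ[F] V} (hg : g ∈ H) (c : F)
    {U : Submodule F V} (hU : Module.rank F U = κ) (hUq : Module.rank F (V ⧸ U) = κ)
    (hgc : ∀ v, g v - c • v ∈ U) (hgU : ∀ x ∈ U, g x ∈ U) (hgU' : ∀ x ∈ U, g.symm x ∈ U)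
    (α : V →ₗ[F] V) (hαU : ∀ v, α v ∈ U)
    (hα : ∀ w₁ w₂ w₃, g.symm (α w₁) + α w₂ + g (α w₃) = 0 → w₁ = 0 ∧ w₂ = 0 ∧ w₃ = 0)
    (c₀ : F) (hc0 : c₀ ≠ 0) (hc1 : c₀ ≠ 1) : H = ⊤ := by
  have hn := N1_normal hH hU hUq
  -- restriction of `g`
  let γ : U ≃ₗ[F] U := LinearEquiv.ofSubmodules g U U (by
    apply le_antisymm
    · rintro _ ⟨x, hx, rfl⟩; exact hgU x hx
    · intro x hx
      exact ⟨g.symm x, hgU' x hx, LinearEquiv.apply_symm_apply g x⟩)
  have hγ1 : ∀ x : U, (γ x : V) = g x := fun x => rfl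
  have hγ2 : ∀ x : U, (γ.symm x : V) = g.symm x := by
    intro x
    have := hγ1 (γ.symm x)
    rw [LinearEquiv.apply_symm_apply] at this
    rw [LinearEquiv.eq_symm_apply, ← this]
  have hγN : ∀ x : U ≃ₗ[F] U, x * γ * x⁻¹ * γ⁻¹ ∈ N1 H U := by
    intro x
    obtain ⟨m, hm, hmx⟩ := hH U hU hUq x
    have hmU : ∀ y ∈ U, m y ∈ U := by
      intro y hy
      have := hmx ⟨y, hy⟩
      simp only at this
      rw [this]; exact Subtype.mem _
    have e : ∀ y : U, m.symm (y : V) = (x.symm y : V) := by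
      intro y
      rw [LinearEquiv.symm_apply_eq, hmx, LinearEquiv.apply_symm_apply]
    refine ⟨m * g * m⁻¹ * g⁻¹, H.mul_mem (H.mul_mem (H.mul_mem hm hg) (H.inv_mem hm)) (H.inv_mem hg),
      fun v => ?_, fun y => ?_⟩
    · change m (g (m.symm (g.symm v))) - v ∈ U
      set z := m.symm (g.symm v) with hz
      have h1 : m z = g.symm v := by rw [hz, LinearEquiv.apply_symm_apply]
      have h2 : m (g z) - v = m (g z - c • z) + -(v - c • g.symm v) := by
        rw [map_sub, map_smul, h1]; abel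
      rw [h2]
      refine U.add_mem (hmU _ (hgc z)) (U.neg_mem ?_)
      have := hgc (g.symm v)
      rwa [LinearEquiv.apply_symm_apply] at this
    · change m (g (m.symm (g.symm y))) = _
      rw [← hγ2, e, ← hγ1, hmx]
      rfl
  -- `N₁` is everything
  obtain ⟨e⟩ := nonempty_linearEquiv_of_rank_eq (hU.trans hV.symm)
  have hN : N1 H U = ⊤ := by
    refine swindle_main hκ hU (N1 H U) γ hγN ((α.codRestrict U hαU) ∘ₗ e.toLinearMap) ?_
    intro w₁ w₂ w₃ hw
    have h1 := congrArg Subtype.val hw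
    have h2 : g.symm (α (e w₁)) + α (e w₂) + g (α (e w₃)) = 0 := by
      rw [Submodule.coe_add, Submodule.coe_add, hγ2, hγ1] at h1
      exact h1
    obtain ⟨h3, h4, h5⟩ := hα _ _ _ h2
    exact ⟨e.map_eq_zero_iff.mp h3, e.map_eq_zero_iff.mp h4, e.map_eq_zero_iff.mp h5⟩
  have hN' : ∀ n : U ≃ₗ[F] U, ∃ k ∈ H, (∀ v, k v - v ∈ U) ∧ ∀ x : U, k (x : V) = (n x : V) := by
    intro n
    have : n ∈ N1 H U := by rw [hN]; trivial
    exact this
  -- step 4
  have hsc : ∀ r : F, r ≠ 0 → ∃ k ∈ H, (∀ v, k v - v ∈ U) ∧ ∀ x ∈ U, k x = r • x := by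
    intro r hr
    obtain ⟨k, hk, hk1, hk2⟩ := hN' (LinearEquiv.smulOfNeZero F U r hr)
    refine ⟨k, hk, hk1, fun x hx => ?_⟩
    have := hk2 ⟨x, hx⟩
    simpa using this
  obtain ⟨h₀, hh₀, h01, h02⟩ := hsc c₀ hc0
  have hc1' : c₀ - 1 ≠ 0 := sub_ne_zero.mpr hc1
  set W := LinearMap.ker (h₀.toLinearMap - LinearMap.id) with hW
  have hWm : ∀ w, w ∈ W ↔ h₀ w = w := by
    intro w
    rw [hW, LinearMap.mem_ker, LinearMap.sub_apply, sub_eq_zero]
    rfl
  have hUW : IsCompl U W := by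
    refine ⟨?_, ?_⟩
    · rw [Submodule.disjoint_def]
      intro x hx hx'
      rw [hWm, h02 x hx] at hx'
      have : (c₀ - 1) • x = 0 := by rw [sub_smul, hx', one_smul, sub_self]
      exact (smul_eq_zero.mp this).resolve_left hc1'
    · rw [codisjoint_iff, eq_top_iff]
      rintro v -
      refine Submodule.mem_sup.mpr ⟨(c₀ - 1)⁻¹ • (h₀ v - v), U.smul_mem _ (h01 v),
        v - (c₀ - 1)⁻¹ • (h₀ v - v), ?_, by abel⟩
      rw [hWm, map_sub, map_smul, h02 _ (h01 v)]
      set y := h₀ v - v with hy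
      have h3 : h₀ v = v + y := by rw [hy]; abel
      rw [h3, smul_smul]
      have h4 : (c₀ - 1)⁻¹ * c₀ = 1 + (c₀ - 1)⁻¹ := by field_simp; ring
      rw [h4, add_smul, one_smul]; abel
  have hWr : Module.rank F W = κ := by rw [← rank_quot_of_isCompl hUW, hUq]
  refine step5 hκ hV hH hUW hU hWr ?_
  intro f hf
  obtain ⟨k, hk, hk1, hk2⟩ := hN' (LinearEquiv.ofSubmodules f U U (supp_map hUW hf))
  have hkf : ∀ x ∈ U, k x = f x := fun x hx => hk2 ⟨x, hx⟩
  -- `y = f⁻¹ k`
  set y := f⁻¹ * k with hy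
  have hyk : k = f * y := by rw [hy]; group
  have hyU : ∀ x ∈ U, y x = x := by
    intro x hx
    change f.symm (k x) = x
    rw [hkf x hx, LinearEquiv.symm_apply_apply]
  have hfs : ∀ x ∈ U, f.symm x ∈ U := by
    intro x hx
    have : x ∈ U.map f.toLinearMap := by rw [supp_map hUW hf]; exact hx
    obtain ⟨z, hz, rfl⟩ := this
    change f.symm (f z) ∈ U
    rw [LinearEquiv.symm_apply_apply]; exact hz
  have hfv : ∀ v, f v - v ∈ U := by
    intro v
    obtain ⟨a, ha, b, hb, rfl⟩ := mem_decomp hUW v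
    rw [map_add, hf.2 b hb]
    have : f a + b - (a + b) = f a - a := by abel
    rw [this]
    exact U.sub_mem (hf.1 a ha) ha
  have hyv : ∀ v, y v - v ∈ U := by
    intro v
    change f.symm (k v) - v ∈ U
    have h1 : f.symm (k v) - v = f.symm (k v - v) - f.symm (f v - v) := by
      rw [map_sub, map_sub, LinearEquiv.symm_apply_apply]; abel
    rw [h1]
    exact U.sub_mem (hfs _ (hk1 v)) (hfs _ (hfv v))
  have hcomm : h₀ * f = f * h₀ := by
    ext v
    change h₀ (f v) = f (h₀ v)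
    obtain ⟨a, ha, b, hb, rfl⟩ := mem_decomp hUW v
    rw [map_add, map_add, map_add, map_add, h02 a ha, map_smul, h02 _ (hf.1 a ha), hf.2 b hb,
      (hWm b).mp hb, hf.2 b hb]
  have hηU : ∀ v v', v' - v ∈ U → y v' - v' = y v - v := by
    intro v v' h
    have h1 := hyU _ h
    rw [map_sub] at h1
    have h2 : y v' = (v' - v) + y v := by rw [← h1]; abel
    rw [h2]; abel
  have hysymm : ∀ v, y.symm v = v - (y v - v) := by
    intro v
    rw [LinearEquiv.symm_apply_eq, map_sub, hyU _ (hyv v)]; abel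
  have hy1 : ∀ v, (k⁻¹ * h₀⁻¹ * k * h₀) v = v + (c₀⁻¹ - 1) • (y v - v) := by
    intro v
    have h1 : k⁻¹ * h₀⁻¹ * k * h₀ = y⁻¹ * h₀⁻¹ * y * h₀ := by
      have h2 : f⁻¹ * h₀⁻¹ * f = h₀⁻¹ := by
        rw [← mul_inv_rev, hcomm]; group
      calc k⁻¹ * h₀⁻¹ * k * h₀ = y⁻¹ * (f⁻¹ * h₀⁻¹ * f) * y * h₀ := by rw [hyk]; group
        _ = _ := by rw [h2]
    rw [h1]
    change y.symm (h₀.symm (y (h₀ v))) = _
    have h3 : y (h₀ v) = h₀ v + (y v - v) := by
      rw [← hηU v (h₀ v) (h01 v)]; abel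
    have h4 : h₀.symm (y v - v) = c₀⁻¹ • (y v - v) := by
      rw [LinearEquiv.symm_apply_eq, map_smul, h02 _ (hyv v), smul_smul, inv_mul_cancel₀ hc0,
        one_smul]
    rw [h3, map_add, LinearEquiv.symm_apply_apply, h4, map_add, hysymm v]
    have h5 : y.symm (c₀⁻¹ • (y v - v)) = c₀⁻¹ • (y v - v) := by
      rw [LinearEquiv.symm_apply_eq, hyU _ (U.smul_mem _ (hyv v))]
    rw [h5, sub_smul, one_smul]; abel
  have hc2 : c₀⁻¹ - 1 ≠ 0 := by
    rw [sub_ne_zero]; intro h
    exact hc1 (inv_eq_one.mp h)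
  obtain ⟨r, hr, hr1, hr2⟩ := hsc (c₀⁻¹ - 1)⁻¹ (inv_ne_zero hc2)
  have hyH : y ∈ H := by
    have : y = r * (k⁻¹ * h₀⁻¹ * k * h₀) * r⁻¹ := by
      ext v
      change y v = r ((k⁻¹ * h₀⁻¹ * k * h₀) (r.symm v))
      have h1 : r.symm v - v ∈ U := by
        have := hr1 (r.symm v)
        rw [LinearEquiv.apply_symm_apply] at this
        have h2 : r.symm v - v = -(v - r.symm v) := by abel
        rw [h2]; exact U.neg_mem this
      rw [hy1, hηU v _ h1, map_add, LinearEquiv.apply_symm_apply, hr2 _ (U.smul_mem _ (hyv v)),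
        smul_smul, inv_mul_cancel₀ hc2, one_smul]
      abel
    rw [this]
    exact H.mul_mem (H.mul_mem hr (H.mul_mem (H.mul_mem (H.mul_mem (H.inv_mem hk) (H.inv_mem hh₀))
      hk) hh₀)) (H.inv_mem hr)
  have : f = k * y⁻¹ := by rw [hy]; group
  rw [this]
  exact H.mul_mem hk (H.inv_mem hyH)

theorem sh_eq_smul {c : F} {φ : ℤ →₀ V} (h : sh (F := F) φ = c • φ) : φ = 0 := by
  have h1 : ∀ n, φ (n - 1) = c • φ n := by
    intro n
    rw [← sh_apply (F := F), h]; rfl
  by_contra hne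
  have hs : φ.support.Nonempty := Finsupp.support_nonempty_iff.mpr hne
  set n := φ.support.max' hs with hn
  have h2 : φ (n + 1) = 0 := by
    by_contra h3
    have h4 := Finset.le_max' φ.support (n + 1) (Finsupp.mem_support_iff.mpr h3)
    omega
  have h5 := h1 (n + 1)
  rw [h2, smul_zero, add_sub_cancel_right] at h5
  exact (Finsupp.mem_support_iff.mp (Finset.max'_mem φ.support hs)) h5

/-- The main theorem -/
theorem main (hκ : ℵ₀ ≤ Module.rank F V)
    (hF : Cardinal.lift.{u} (Module.rank F V) < Cardinal.lift.{v} #F)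
    {H : Subgroup (V ≃ₗ[F] V)} (hH : Full (Module.rank F V) H) : H = ⊤ := by
  obtain ⟨κ, hV⟩ : ∃ κ, Module.rank F V = κ := ⟨_, rfl⟩
  rw [hV] at hκ hF hH
  have hrank : Module.rank F ((ℤ →₀ V) × V) = Module.rank F V := by
    rw [rank_prod', rank_finsupp]
    simp only [Cardinal.mk_denumerable, Cardinal.lift_aleph0, Cardinal.lift_id']
    rw [hV, Cardinal.aleph0_mul_eq hκ, Cardinal.add_eq_self hκ]
  obtain ⟨e⟩ := nonempty_linearEquiv_of_rank_eq hrank
  let ι : (ℤ →₀ V) →ₗ[F] V := e.toLinearMap ∘ₗ LinearMap.inl F _ _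
  have hιi : Function.Injective ι := by
    rw [LinearMap.coe_comp]; exact e.injective.comp LinearMap.inl_injective
  let ι' : V →ₗ[F] V := e.toLinearMap ∘ₗ LinearMap.inr F _ _
  have hι'i : Function.Injective ι' := by
    rw [LinearMap.coe_comp]; exact e.injective.comp LinearMap.inr_injective
  set U₀ := LinearMap.range ι with hU₀
  have hU0 : Module.rank F U₀ = κ := by
    rw [← (LinearEquiv.ofInjective ι hιi).rank_eq, rank_finsupp]
    simp only [Cardinal.mk_denumerable, Cardinal.lift_aleph0, Cardinal.lift_id']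
    rw [hV, Cardinal.aleph0_mul_eq hκ]
  have hd0 : Disjoint U₀ (LinearMap.range ι') := by
    rw [Submodule.disjoint_def]
    rintro x ⟨a, rfl⟩ ⟨b, hb⟩
    have h1 : LinearMap.inr F (ℤ →₀ V) V b = LinearMap.inl F _ _ a := e.injective hb
    simp only [LinearMap.inr_apply, LinearMap.inl_apply, Prod.mk.injEq] at h1
    rw [← h1.1, map_zero]
  have hU0q : Module.rank F (V ⧸ U₀) = κ := by
    apply le_antisymm (by rw [← hV]; exact rank_quotient_le _)
    refine le_trans ?_ (rank_quot_ge_of_disjoint hd0)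
    rw [← (LinearEquiv.ofInjective ι' hι'i).rank_eq, hV]
  -- the element `g` extending the shift
  obtain ⟨g, hg, hgs⟩ := hH U₀ hU0 hU0q
    ((LinearEquiv.ofInjective ι hιi).symm.trans ((sh (F := F)).trans (LinearEquiv.ofInjective ι hιi)))
  have hgι : ∀ f, g (ι f) = ι (sh (F := F) f) := by
    intro f
    have := hgs (LinearEquiv.ofInjective ι hιi f)
    rw [LinearEquiv.trans_apply, LinearEquiv.symm_apply_apply] at this
    exact this
  have hgι' : ∀ f, g.symm (ι f) = ι ((sh (F := F)).symm f) := by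
    intro f
    rw [LinearEquiv.symm_apply_eq, hgι, LinearEquiv.apply_symm_apply]
  -- the eigenvalues on the quotient
  have hgU0 : U₀ ≤ U₀.comap g.toLinearMap := by
    rintro _ ⟨f, rfl⟩
    exact ⟨sh (F := F) f, (hgι f).symm⟩
  let T : Module.End F (V ⧸ U₀) := U₀.mapQ U₀ g.toLinearMap hgU0
  have hcard : Cardinal.lift.{v} #{c : F | T.HasEigenvalue c} ≤ Cardinal.lift.{u} κ := by
    have hx : ∀ μ : {c : F | T.HasEigenvalue c}, ∃ v, T.HasEigenvector μ v := fun μ =>
      Module.End.HasEigenvalue.exists_hasEigenvector μ.2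
    choose xs hxs using hx
    have := (Module.End.eigenvectors_linearIndependent T {c : F | T.HasEigenvalue c} xs
      hxs).cardinal_lift_le_rank
    rwa [hU0q] at this
  obtain ⟨c, hc0, hc1, hcT⟩ : ∃ c : F, c ≠ 0 ∧ c ≠ 1 ∧ ¬ T.HasEigenvalue c := by
    by_contra hcon
    push Not at hcon
    have h1 : (Set.univ : Set F) ⊆ {c : F | T.HasEigenvalue c} ∪ {0, 1} := by
      intro c _
      by_cases h0 : c = 0
      · right; simp [h0]
      by_cases h1 : c = 1
      · right; simp [h1]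
      exact Or.inl (hcon c h0 h1)
    have h2 : #F ≤ #{c : F | T.HasEigenvalue c} + #({0, 1} : Set F) := by
      rw [← Cardinal.mk_univ]
      exact (Cardinal.mk_le_mk_of_subset h1).trans (Cardinal.mk_union_le _ _)
    have h3 : Cardinal.lift.{v} #F ≤ Cardinal.lift.{u} κ + ℵ₀ := by
      refine (Cardinal.lift_le.mpr h2).trans ?_
      rw [Cardinal.lift_add]
      refine add_le_add hcard ?_
      rw [Cardinal.lift_le_aleph0]
      exact Cardinal.mk_le_aleph0
    have h4 : Cardinal.lift.{u} κ + ℵ₀ = Cardinal.lift.{u} κ :=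
      Cardinal.add_eq_left (Cardinal.aleph0_le_lift.mpr hκ) (Cardinal.aleph0_le_lift.mpr hκ)
    rw [h4] at h3
    exact absurd hF (not_lt.mpr h3)
  have hcU0 : ∀ v, g v - c • v ∈ U₀ → v ∈ U₀ := by
    intro v hv
    by_contra hne
    apply hcT
    refine Module.End.hasEigenvalue_of_hasEigenvector (x := U₀.mkQ v) ⟨?_, ?_⟩
    · rw [Module.End.mem_eigenspace_iff]
      have h1 : T (U₀.mkQ v) = U₀.mkQ (g v) := by
        simp only [T, Submodule.mkQ_apply, Submodule.mapQ_apply]; rfl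
      rw [h1, ← map_smul]
      have h2 : U₀.mkQ (g v - c • v) = 0 := by
        rw [Submodule.mkQ_apply, Submodule.Quotient.mk_eq_zero]; exact hv
      rwa [map_sub, sub_eq_zero] at h2
    · intro h
      exact hne (by simpa using h)
  -- the subspace `U`
  set d : V →ₗ[F] V := g.toLinearMap - c • LinearMap.id with hd
  have hdv : ∀ v, d v = g v - c • v := fun v => rfl
  set U := LinearMap.range d with hUdef
  let α : V →ₗ[F] V := d ∘ₗ ι ∘ₗ Finsupp.lsingle 0
  have hαv : ∀ v, α v = d (ι (Finsupp.single 0 v)) := fun v => rfl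
  have hdι : ∀ f, d (ι f) = ι (sh (F := F) f - c • f) := by
    intro f
    rw [hdv, hgι, map_sub, map_smul]
  have hdι0 : ∀ f, d (ι f) = 0 → f = 0 := by
    intro f hf
    rw [hdι] at hf
    have := (map_eq_zero_iff ι hιi).mp hf
    exact sh_eq_smul (sub_eq_zero.mp this)
  have hgd : ∀ v, g (d v) = d (g v) := by
    intro v; rw [hdv, hdv, map_sub, map_smul]
  have hgd' : ∀ v, g.symm (d v) = d (g.symm v) := by
    intro v
    rw [LinearEquiv.symm_apply_eq, hgd, LinearEquiv.apply_symm_apply]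
  have hα : ∀ w₁ w₂ w₃, g.symm (α w₁) + α w₂ + g (α w₃) = 0 → w₁ = 0 ∧ w₂ = 0 ∧ w₃ = 0 := by
    intro w₁ w₂ w₃ h
    have h1 : d (ι (Finsupp.single (-1) w₁ + Finsupp.single 0 w₂ + Finsupp.single 1 w₃)) = 0 := by
      rw [← h, hαv, hαv, hαv, hgd, hgd', hgι, hgι', sh_single, map_add, map_add, map_add, map_add]
      congr 3
      congr 2
      rw [LinearEquiv.eq_symm_apply, sh_single]; rfl
    have h2 := hdι0 _ h1
    have h3 := DFunLike.congr_fun h2 (-1)
    have h4 := DFunLike.congr_fun h2 0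
    have h5 := DFunLike.congr_fun h2 1
    simp at h3 h4 h5
    exact ⟨h3, h4, h5⟩
  have hαi : Function.Injective α := by
    rw [injective_iff_map_eq_zero]
    intro v hv
    exact (hα 0 v 0 (by simp [hv])).2.1
  have hU : Module.rank F U = κ := by
    apply le_antisymm (by rw [← hV]; exact Submodule.rank_le _)
    rw [← hV]
    exact LinearMap.rank_le_of_injective (α.codRestrict U (fun v => ⟨_, rfl⟩))
      (fun x y h => hαi (congrArg Subtype.val h))
  have hUq : Module.rank F (V ⧸ U) = κ := by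
    apply le_antisymm (by rw [← hV]; exact rank_quotient_le _)
    rw [← hV]
    refine LinearMap.rank_le_of_injective (U.mkQ ∘ₗ ι ∘ₗ Finsupp.lsingle 0) ?_
    rw [injective_iff_map_eq_zero]
    intro v hv
    have h1 : ι (Finsupp.single 0 v) ∈ U := by
      have : U.mkQ (ι (Finsupp.single 0 v)) = 0 := hv
      simpa using this
    obtain ⟨x, hx⟩ := h1
    have h2 : x ∈ U₀ := hcU0 x (by rw [← hdv, hx]; exact ⟨_, rfl⟩)
    obtain ⟨f, rfl⟩ := h2
    rw [hdι] at hx
    have h3 := hιi hx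
    -- the functional
    let π : (ℤ →₀ V) →ₗ[F] V := Finsupp.lsum F (fun n : ℤ => (c ^ n : F) • LinearMap.id)
    have hπ1 : ∀ n v, π (Finsupp.single n v) = c ^ n • v := by
      intro n v; simp [π]
    have hπ2 : π ∘ₗ (sh (F := F)).toLinearMap = c • π := by
      apply Finsupp.lhom_ext
      intro n v
      change π (sh (F := F) (Finsupp.single n v)) = c • π (Finsupp.single n v)
      rw [sh_single, hπ1, hπ1, smul_smul, zpow_add_one₀ hc0, mul_comm]
    have h4 : π (sh (F := F) f) = c • π f := LinearMap.congr_fun hπ2 f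
    have h5 := congrArg π h3
    rw [map_sub, map_smul, h4, sub_self, hπ1, zpow_zero, one_smul] at h5
    exact h5.symm
  refine core hκ hV hH hg c hU hUq (fun v => ⟨v, rfl⟩) ?_ ?_ α (fun v => ⟨_, rfl⟩) hα c hc0 hc1
  · rintro _ ⟨v, rfl⟩
    exact ⟨g v, (hgd v).symm⟩
  · rintro _ ⟨v, rfl⟩
    exact ⟨g.symm v, (hgd' v).symm⟩

end Pool.Agent.H77.GL
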